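import Mathlib
import Pool.Agent.K1H92.ZO.Defs

/-! Null sets for the Haar measure of `SO(3)` via quaternions (helper68, for helper92). -/

set_option autoImplicit false

open MeasureTheory Set

namespace Pool.Agent.K1H68.ZO

open Pool.Agent.K1H92.ZO

/-- multiplication by `p` from the left -/
noncomputable def lmul (p : X) : X →ₗ[ℝ] X where
  toFun q := qmul p q
  map_add' a b := by
    refine Prod.ext ?_ ?_
    · simp only [qmul, Prod.fst_add, Prod.snd_add, Pi.add_apply]
      ring
    · funext i
      fin_cases i <;> simp [qmul] <;> ring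
  map_smul' c a := by
    refine Prod.ext ?_ ?_
    · simp only [qmul, Prod.smul_fst, Prod.smul_snd, Pi.smul_apply, smul_eq_mul,
        RingHom.id_apply]
      ring
    · funext i
      fin_cases i <;> simp [qmul] <;> ring

theorem continuous_nsq : Continuous nsq := by
  unfold nsq
  fun_prop

theorem nsq_eq_zero {p : X} (h : nsq p = 0) : p = 0 := by
  unfold nsq at h
  have h0 : p.1 = 0 := by nlinarith [sq_nonneg p.1, sq_nonneg (p.2 0), sq_nonneg (p.2 1), sq_nonneg (p.2 2)]
  have h1 : p.2 0 = 0 := by nlinarith [sq_nonneg p.1, sq_nonneg (p.2 0), sq_nonneg (p.2 1), sq_nonneg (p.2 2)]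
  have h2 : p.2 1 = 0 := by nlinarith [sq_nonneg p.1, sq_nonneg (p.2 0), sq_nonneg (p.2 1), sq_nonneg (p.2 2)]
  have h3 : p.2 2 = 0 := by nlinarith [sq_nonneg p.1, sq_nonneg (p.2 0), sq_nonneg (p.2 1), sq_nonneg (p.2 2)]
  refine Prod.ext h0 ?_
  funext i
  fin_cases i
  · exact h1
  · exact h2
  · exact h3

instance : (volume : Measure X).IsAddHaarMeasure := by
  rw [Measure.volume_eq_prod]
  infer_instance

/-- the open unit ball -/
def Bl : Set X := {p : X | nsq p < 1}

theorem isOpen_Bl : IsOpen Bl := isOpen_lt continuous_nsq continuous_const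

theorem measurableSet_Bl : MeasurableSet Bl := isOpen_Bl.measurableSet

theorem abs_le_of_sq {x y : ℝ} (h : x ^ 2 ≤ y) (hy : y ≤ 1) : |x| ≤ 1 := by
  rw [abs_le]
  constructor <;> nlinarith

theorem Bl_sub : Bl ⊆ Metric.closedBall (0 : X) 1 := by
  intro p hp
  have h : nsq p < 1 := hp
  unfold nsq at h
  rw [mem_closedBall_zero_iff, Prod.norm_def]
  refine max_le ?_ ?_
  · rw [Real.norm_eq_abs]
    exact abs_le_of_sq (y := p.1 ^ 2) le_rfl
      (by nlinarith [sq_nonneg p.1, sq_nonneg (p.2 0), sq_nonneg (p.2 1), sq_nonneg (p.2 2)])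
  · rw [pi_norm_le_iff_of_nonneg zero_le_one]
    intro i
    rw [Real.norm_eq_abs]
    fin_cases i
    · exact abs_le_of_sq (y := p.2 0 ^ 2) le_rfl
        (by nlinarith [sq_nonneg p.1, sq_nonneg (p.2 0), sq_nonneg (p.2 1), sq_nonneg (p.2 2)])
    · exact abs_le_of_sq (y := p.2 1 ^ 2) le_rfl
        (by nlinarith [sq_nonneg p.1, sq_nonneg (p.2 0), sq_nonneg (p.2 1), sq_nonneg (p.2 2)])
    · exact abs_le_of_sq (y := p.2 2 ^ 2) le_rfl
        (by nlinarith [sq_nonneg p.1, sq_nonneg (p.2 0), sq_nonneg (p.2 1), sq_nonneg (p.2 2)])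

theorem vol_Bl_ne_top : (volume Bl : ENNReal) ≠ ⊤ :=
  ((measure_mono Bl_sub).trans_lt measure_closedBall_lt_top).ne

theorem vol_Bl_ne_zero : (volume Bl : ENNReal) ≠ 0 := by
  refine (isOpen_Bl.measure_pos volume ⟨0, ?_⟩).ne'
  show nsq 0 < 1
  simp [nsq]

theorem preimage_Bl (hn : ∀ p q, nsq (qmul p q) = nsq p * nsq q) {p : X} (hp : nsq p = 1) :
    lmul p ⁻¹' Bl = Bl := by
  ext q
  show nsq (qmul p q) < 1 ↔ nsq q < 1
  rw [hn, hp, one_mul]

theorem measurePreserving_lmul (hn : ∀ p q, nsq (qmul p q) = nsq p * nsq q) {p : X}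
    (hp : nsq p = 1) : MeasurePreserving (lmul p) (volume : Measure X) volume := by
  have hinj : Function.Injective (lmul p) := by
    rw [← LinearMap.ker_eq_bot, LinearMap.ker_eq_bot']
    intro q hq
    apply nsq_eq_zero
    have h : nsq (qmul p q) = 0 := by
      have : qmul p q = 0 := hq
      rw [this]
      simp [nsq]
    rw [hn, hp, one_mul] at h
    exact h
  have hdet : LinearMap.det (lmul p) ≠ 0 := by
    have h := LinearEquiv.isUnit_det' (LinearEquiv.ofInjectiveEndo (lmul p) hinj)
    have e : ((LinearEquiv.ofInjectiveEndo (lmul p) hinj : X ≃ₗ[ℝ] X) : X →ₗ[ℝ] X) = lmul p :=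
      LinearMap.ext fun _ => rfl
    rw [e] at h
    exact h.ne_zero
  have hmap := Measure.map_linearMap_addHaar_eq_smul_addHaar (volume : Measure X) hdet
  have hm : Measurable (lmul p) := (LinearMap.continuous_of_finiteDimensional _).measurable
  refine ⟨hm, ?_⟩
  have h1 := congrArg (fun m : Measure X => m Bl) hmap
  simp only [Measure.smul_apply, smul_eq_mul] at h1
  rw [Measure.map_apply hm measurableSet_Bl, preimage_Bl hn hp] at h1
  have h2 : ENNReal.ofReal |(LinearMap.det (lmul p))⁻¹| = 1 := by
    have h3 : ENNReal.ofReal |(LinearMap.det (lmul p))⁻¹| * volume Bl = 1 * volume Bl := by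
      rw [← h1, one_mul]
    exact (ENNReal.mul_left_inj vol_Bl_ne_zero vol_Bl_ne_top).1 h3
  rw [hmap, h2, one_smul]

/-- the uniform measure of the unit ball -/
noncomputable def nu0 : Measure X := (volume Bl)⁻¹ • (volume.restrict Bl)

instance : IsProbabilityMeasure nu0 := by
  constructor
  rw [nu0, Measure.smul_apply, Measure.restrict_apply_univ, smul_eq_mul]
  exact ENNReal.inv_mul_cancel vol_Bl_ne_zero vol_Bl_ne_top

theorem nu0_ac : nu0 ≪ (volume : Measure X) := by
  unfold nu0
  exact (Measure.smul_absolutelyContinuous).trans Measure.restrict_le_self.absolutelyContinuous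

theorem nu0_map (hn : ∀ p q, nsq (qmul p q) = nsq p * nsq q) {p : X} (hp : nsq p = 1) :
    nu0.map (lmul p) = nu0 := by
  have h := (measurePreserving_lmul hn hp).restrict_preimage measurableSet_Bl
  rw [preimage_Bl hn hp] at h
  rw [nu0, Measure.map_smul, h.map_eq]

theorem haar [MeasurableSpace SO3] [BorelSpace SO3] (hR : StmRot)
    (hn : ∀ p q, nsq (qmul p q) = nsq p * nsq q) : StmHaar := by
  intro μ _ _ O hO hnull
  have hinv : (nu0.map R).IsMulLeftInvariant := by
    constructor
    intro g
    obtain ⟨p0, hp0, rfl⟩ := hR.surj g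
    have hmg : Measurable (fun x : SO3 => R p0 * x) := (continuous_const_mul (R p0)).measurable
    have hml : Measurable (lmul p0) := (LinearMap.continuous_of_finiteDimensional _).measurable
    rw [Measure.map_map hmg hR.meas]
    have hae : (fun x : X => R p0 * R x) =ᵐ[nu0] fun x => R (lmul p0 x) := by
      have h0 : ∀ᵐ x ∂(volume : Measure X), x ≠ 0 := by
        rw [ae_iff]
        simp only [ne_eq, not_not, Set.ofPred_eq_eq_singleton]
        exact measure_singleton 0
      filter_upwards [nu0_ac.ae_le h0] with x hx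
      have hx' : nsq x ≠ 0 := fun h => hx (nsq_eq_zero h)
      exact (hR.mul p0 x (by rw [hp0]; exact one_ne_zero) hx').symm
    calc Measure.map ((fun x : SO3 => R p0 * x) ∘ R) nu0
        = Measure.map (fun x => R (lmul p0 x)) nu0 := Measure.map_congr hae
      _ = Measure.map R (Measure.map (lmul p0) nu0) := (Measure.map_map hR.meas hml).symm
      _ = Measure.map R nu0 := by rw [nu0_map hn hp0]
  have hprob : IsProbabilityMeasure (nu0.map R) :=
    Measure.isProbabilityMeasure_map hR.meas.aemeasurable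
  have hc := Measure.isMulInvariant_eq_smul_of_compactSpace (nu0.map R) μ
  have hmu : nu0.map R = μ := by
    have h1 := congrArg (fun m : Measure SO3 => m univ) hc
    simp only [measure_univ, Measure.smul_apply] at h1
    have h2 : Measure.haarScalarFactor (nu0.map R) μ = 1 := by
      have h3 : ((Measure.haarScalarFactor (nu0.map R) μ : NNReal) : ENNReal) = 1 := by
        rw [h1]
        simp [ENNReal.smul_def]
      exact_mod_cast h3
    rw [hc, h2, one_smul]
  rw [← hmu, Measure.map_prod_map _ _ hR.meas hR.meas,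
    Measure.map_apply (hR.meas.prodMap hR.meas) hO]
  have hac : nu0.prod nu0 ≪ (volume : Measure (X × X)) := by
    rw [Measure.volume_eq_prod]
    exact nu0_ac.prod nu0_ac
  exact hac hnull

end Pool.Agent.K1H68.ZO

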